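import Mathlib
import Pool.Agent.Helper40.Nil.Stmts2

/-! Module ENTLOW: an orbit which spans `ℓ¹` prevents zero entropy. -/

set_option autoImplicit false

namespace Pool.Agent.Helper40.Nil

open Filter Topology

universe u w

theorem st_ENTLOW (hNCK : ST_NCK) : ST_ENTLOW.{u, w} := by
  classical
  obtain ⟨C, hC, hN⟩ := hNCK
  intro A _ H _ _ _ π hπ α hα a ha M hM κ hκ
  by_contra hcon
  push Not at hcon
  have hM' : (1 : ℝ) ≤ M := by exact_mod_cast hM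
  obtain ⟨ε, hε⟩ : ∃ ε, ε = κ ^ 2 / (8 * C ^ 2 * M) := ⟨_, rfl⟩
  have hεpos : 0 < ε := by rw [hε]; positivity
  have hZ := hα {a} (κ / 2) ε (by positivity) hεpos
  obtain ⟨N0, hN0⟩ := exists_nat_gt (8 * C ^ 2 * M / κ ^ 2)
  obtain ⟨n', ⟨k, hk, φ, ψ, hφ, hψ, happ⟩, hn'⟩ :=
    (hZ.and_eventually (eventually_ge_atTop (N0 + 1))).exists
  have hn'1 : (8 * C ^ 2 * M / κ ^ 2) < n' := by
    have : (N0 : ℝ) ≤ n' := by
      have h1 : N0 ≤ n' := by omega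
      exact_mod_cast h1
    linarith
  obtain ⟨m, hm⟩ : ∃ m, m = (n' + M - 1) / M := ⟨_, rfl⟩
  have hMpos : 0 < M := hM
  have hm1 : m * M ≤ n' + M - 1 := by
    rw [hm]
    exact Nat.div_mul_le_self _ _
  have hm2 : n' ≤ m * M := by
    have h1 : n' + M - 1 < (m + 1) * M := by
      rw [hm]
      exact (Nat.div_lt_iff_lt_mul hMpos).mp (Nat.lt_succ_self _)
    have h2 : (m + 1) * M = m * M + M := by ring
    omega
  have hmpos : 1 ≤ m := by
    by_contra h0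
    have h1 : m = 0 := by omega
    rw [h1] at hm2
    omega
  have hj : ∀ j : Fin m, (j : ℕ) * M < n' := by
    intro j
    have h1 : (j : ℕ) + 1 ≤ m := j.2
    have h2 : ((j : ℕ) + 1) * M ≤ m * M := Nat.mul_le_mul_right _ h1
    have h3 : ((j : ℕ) + 1) * M = (j : ℕ) * M + M := by ring
    omega
  have hB : ∀ j : Fin m, ‖φ (α^[(j : ℕ) * M] a)‖ ≤ 1 := by
    intro j
    have h1 := φ.le_opNorm (α^[(j : ℕ) * M] a)
    have h2 : ‖φ‖ * ‖α^[(j : ℕ) * M] a‖ ≤ 1 * 1 :=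
      mul_le_mul hφ (ha _) (norm_nonneg _) (by norm_num)
    linarith
  have hsg : ∃ e : Fin m → ℝ, (∀ j, e j = 1 ∨ e j = -1) ∧
      ‖∑ j, ((e j : ℝ) : ℂ) • φ (α^[(j : ℕ) * M] a)‖ ≤ C * Real.sqrt (m * (1 + ε * n')) := by
    rcases Nat.eq_zero_or_pos k with hk0 | hk0
    · refine ⟨fun _ => 1, fun _ => Or.inl rfl, ?_⟩
      subst hk0
      have h1 : (∑ j : Fin m, (((fun _ => 1 : Fin m → ℝ) j : ℝ) : ℂ) •
          φ (α^[(j : ℕ) * M] a)) = 0 := by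
        ext v i
        exact i.elim0
      rw [h1, norm_zero]
      positivity
    · obtain ⟨e, he, h1⟩ := hN k m hk0 (fun j => φ (α^[(j : ℕ) * M] a)) hB
      refine ⟨e, he, h1.trans ?_⟩
      apply mul_le_mul_of_nonneg_left _ hC.le
      apply Real.sqrt_le_sqrt
      apply mul_le_mul_of_nonneg_left _ (Nat.cast_nonneg _)
      have h2 : Real.log k ≤ ε * n' := by
        rw [Real.log_le_iff_le_exp (by exact_mod_cast hk0)]
        exact hk
      linarith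
  obtain ⟨e, he, hsum⟩ := hsg
  have h1 := hcon m e he
  have h2 : ‖∑ j : Fin m, ((e j : ℝ) : ℂ) • α^[(j : ℕ) * M] a‖ =
      ‖∑ j : Fin m, ((e j : ℝ) : ℂ) • π (α^[(j : ℕ) * M] a)‖ := by
    rw [← NonUnitalStarAlgHom.norm_map π hπ, map_sum]
    simp only [map_smul]
  have h3 : (∑ j : Fin m, ((e j : ℝ) : ℂ) • π (α^[(j : ℕ) * M] a)) =
      ψ (∑ j : Fin m, ((e j : ℝ) : ℂ) • φ (α^[(j : ℕ) * M] a)) -
      ∑ j : Fin m, ((e j : ℝ) : ℂ) •
        (ψ (φ (α^[(j : ℕ) * M] a)) - π (α^[(j : ℕ) * M] a)) := by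
    rw [map_sum, ← Finset.sum_sub_distrib]
    refine Finset.sum_congr rfl (fun j _ => ?_)
    rw [map_smul, smul_sub]
    abel
  have h4 : ‖ψ (∑ j : Fin m, ((e j : ℝ) : ℂ) • φ (α^[(j : ℕ) * M] a))‖ ≤
      C * Real.sqrt (m * (1 + ε * n')) := by
    refine (ψ.le_opNorm _).trans ?_
    calc ‖ψ‖ * ‖∑ j : Fin m, ((e j : ℝ) : ℂ) • φ (α^[(j : ℕ) * M] a)‖
        ≤ 1 * ‖∑ j : Fin m, ((e j : ℝ) : ℂ) • φ (α^[(j : ℕ) * M] a)‖ :=
          mul_le_mul_of_nonneg_right hψ (norm_nonneg _)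
      _ ≤ _ := by rw [one_mul]; exact hsum
  have h5 : ‖∑ j : Fin m, ((e j : ℝ) : ℂ) •
      (ψ (φ (α^[(j : ℕ) * M] a)) - π (α^[(j : ℕ) * M] a))‖ ≤ m * (κ / 2) := by
    refine (norm_sum_le _ _).trans ?_
    calc ∑ j : Fin m, ‖((e j : ℝ) : ℂ) • (ψ (φ (α^[(j : ℕ) * M] a)) - π (α^[(j : ℕ) * M] a))‖
        ≤ ∑ j : Fin m, κ / 2 := by
          refine Finset.sum_le_sum (fun j _ => ?_)
          rw [norm_smul, Complex.norm_real]
          have h6 : ‖e j‖ = 1 := by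
            rcases he j with h | h <;> rw [h] <;> simp
          rw [h6, one_mul]
          exact (happ a (Finset.mem_singleton_self a) _ (hj j)).le
      _ = _ := by simp
  have h6 : κ * m ≤ C * Real.sqrt (m * (1 + ε * n')) + m * (κ / 2) := by
    refine h1.trans ?_
    rw [h2, h3]
    exact (norm_sub_le _ _).trans (add_le_add h4 h5)
  have hmR : (1 : ℝ) ≤ m := by exact_mod_cast hmpos
  have h7 : κ * m / 2 ≤ C * Real.sqrt (m * (1 + ε * n')) := by linarith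
  have h8 : (κ * m / 2) ^ 2 ≤ C ^ 2 * (m * (1 + ε * n')) := by
    have h9 := pow_le_pow_left₀ (by positivity) h7 2
    rwa [mul_pow, Real.sq_sqrt (by positivity)] at h9
  have h9 : κ ^ 2 * m ≤ 4 * C ^ 2 * (1 + ε * n') := by
    have h10 : m * (κ ^ 2 * m) ≤ m * (4 * C ^ 2 * (1 + ε * n')) := by nlinarith
    exact le_of_mul_le_mul_left h10 (by linarith)
  have h10 : (n' : ℝ) ≤ m * M := by exact_mod_cast hm2
  have h11 : κ ^ 2 * n' ≤ 4 * C ^ 2 * M * (1 + ε * n') := by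
    have h12 : κ ^ 2 * n' ≤ κ ^ 2 * m * M := by nlinarith [sq_nonneg κ]
    have h13 : κ ^ 2 * m * M ≤ 4 * C ^ 2 * (1 + ε * n') * M :=
      mul_le_mul_of_nonneg_right h9 (by linarith)
    linarith
  have h12 : 4 * C ^ 2 * M * (ε * n') = κ ^ 2 * n' / 2 := by
    rw [hε]
    field_simp
    ring
  have h13 : κ ^ 2 * n' ≤ 8 * C ^ 2 * M := by nlinarith
  rw [div_lt_iff₀ (by positivity)] at hn'1
  linarith

end Pool.Agent.Helper40.Nil
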