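import Mathlib
import Pool.Agent.Helper40.Nil.Stmts

/-! Module G1: powers with scalar values in irreducible representations of nilpotent groups. -/

set_option autoImplicit false

namespace Pool.Agent.Helper40.Nil

open scoped commutatorElement

universe u v

theorem g1_step (P : Type u) [Group P] (d : ℕ)
    (h0 : ∀ x : P, (∀ y : P, ⁅x, y⁆ = 1) → x ^ d = 1) :
    ∀ (i : ℕ) (x : P), x ∈ Subgroup.upperCentralSeries P (i + 1) →
      x ^ d ∈ Subgroup.upperCentralSeries P i := by
  intro i
  induction i with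
  | zero =>
    intro x hx
    rw [Subgroup.upperCentralSeries_zero, Subgroup.mem_bot]
    apply h0
    intro y
    have h1 := Subgroup.mem_upperCentralSeries_succ_iff.mp hx y
    rwa [Subgroup.upperCentralSeries_zero, Subgroup.mem_bot] at h1
  | succ j ih =>
    intro x hx
    rw [Subgroup.mem_upperCentralSeries_succ_iff]
    intro g
    have hk := Subgroup.mem_upperCentralSeries_succ_iff.mp hx g
    obtain ⟨k, hkd⟩ : ∃ k, k = ⁅x, g⁆ := ⟨_, rfl⟩
    rw [← hkd] at hk
    have hk2 := ih k hk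
    -- work in the quotient
    have hcomm : Commute (QuotientGroup.mk k⁻¹ : P ⧸ Subgroup.upperCentralSeries P j)
        (QuotientGroup.mk x) := by
      have h1 := Subgroup.mem_upperCentralSeries_succ_iff.mp (Subgroup.inv_mem _ hk) x
      have h2 : (QuotientGroup.mk ⁅k⁻¹, x⁆ : P ⧸ Subgroup.upperCentralSeries P j) = 1 :=
        (QuotientGroup.eq_one_iff _).mpr h1
      rw [commutatorElement_def] at h2
      have h3 : (QuotientGroup.mk (k⁻¹ * x * k⁻¹⁻¹ * x⁻¹) : P ⧸ Subgroup.upperCentralSeries P j) =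
        QuotientGroup.mk k⁻¹ * QuotientGroup.mk x * (QuotientGroup.mk k⁻¹)⁻¹ *
          (QuotientGroup.mk x)⁻¹ := rfl
      rw [h3, mul_inv_eq_one, mul_inv_eq_iff_eq_mul] at h2
      exact h2
    have hconj : g * x * g⁻¹ = k⁻¹ * x := by
      rw [hkd, commutatorElement_def]
      group
    have h5 : (QuotientGroup.mk (g * x ^ d * g⁻¹) : P ⧸ Subgroup.upperCentralSeries P j) =
        QuotientGroup.mk (x ^ d) := by
      have h6 : g * x ^ d * g⁻¹ = (k⁻¹ * x) ^ d := by
        rw [← hconj, conj_pow]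
      have h7 : (QuotientGroup.mk ((k⁻¹ * x) ^ d) : P ⧸ Subgroup.upperCentralSeries P j) =
        (QuotientGroup.mk k⁻¹ * QuotientGroup.mk x) ^ d := rfl
      have h8 : (QuotientGroup.mk k⁻¹ : P ⧸ Subgroup.upperCentralSeries P j) ^ d = 1 := by
        have h9 : (QuotientGroup.mk k⁻¹ : P ⧸ Subgroup.upperCentralSeries P j) ^ d =
          ((QuotientGroup.mk (k ^ d) : P ⧸ Subgroup.upperCentralSeries P j))⁻¹ := by
          rw [show (QuotientGroup.mk k⁻¹ : P ⧸ Subgroup.upperCentralSeries P j) =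
            (QuotientGroup.mk k)⁻¹ from rfl, inv_pow]
          rfl
        rw [h9, (QuotientGroup.eq_one_iff _).mpr hk2, inv_one]
      rw [h6, h7, hcomm.mul_pow, h8, one_mul]
      rfl
    have h10 : ⁅x ^ d, g⁆ = x ^ d * (g * x ^ d * g⁻¹)⁻¹ := by
      rw [commutatorElement_def]
      group
    rw [h10, ← QuotientGroup.eq_one_iff]
    have h11 : (QuotientGroup.mk (x ^ d * (g * x ^ d * g⁻¹)⁻¹) :
        P ⧸ Subgroup.upperCentralSeries P j) =
        QuotientGroup.mk (x ^ d) * (QuotientGroup.mk (g * x ^ d * g⁻¹))⁻¹ := rfl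
    rw [h11, h5, mul_inv_cancel]

theorem g1_pow (P : Type u) [Group P] (hP : Group.IsNilpotent P) (d : ℕ)
    (h0 : ∀ x : P, (∀ y : P, ⁅x, y⁆ = 1) → x ^ d = 1) : ∃ c : ℕ, ∀ x : P, x ^ (d ^ c) = 1 := by
  obtain ⟨c, hc⟩ := hP.nilpotent'
  refine ⟨c, fun x => ?_⟩
  have h1 : ∀ i, i ≤ c → x ^ (d ^ i) ∈ Subgroup.upperCentralSeries P (c - i) := by
    intro i
    induction i with
    | zero =>
      intro _
      rw [Nat.sub_zero, hc]
      trivial
    | succ i ih =>
      intro hi
      have h2 := ih (by omega)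
      have h3 : c - i = (c - (i + 1)) + 1 := by omega
      rw [h3] at h2
      have h4 := g1_step P d h0 _ _ h2
      rwa [← pow_mul, ← pow_succ] at h4
  have h2 := h1 c le_rfl
  rw [Nat.sub_self, Subgroup.upperCentralSeries_zero, Subgroup.mem_bot] at h2
  exact h2

theorem st_G1 : ST_G1.{u, v} := by
  intro V _ hV E _ _ _ π hS
  rcases Nat.eq_zero_or_pos (Module.finrank ℂ E) with hd | hd
  · refine ⟨1, le_rfl, fun y => ⟨0, fun v => ?_⟩⟩
    have h1 : Subsingleton E := Module.finrank_zero_iff.mp hd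
    exact Subsingleton.elim _ _
  obtain ⟨d, hdd⟩ : ∃ d, d = Module.finrank ℂ E := ⟨_, rfl⟩
  rw [← hdd] at hd
  let N0 : Subgroup V :=
    { carrier := {y | ∃ c : ℂ, ∀ v, π y v = c • v}
      one_mem' := ⟨1, fun v => by rw [map_one, one_smul]; rfl⟩
      mul_mem' := by
        rintro a b ⟨c1, h1⟩ ⟨c2, h2⟩
        refine ⟨c1 * c2, fun v => ?_⟩
        rw [map_mul]
        change π a (π b v) = _
        rw [h2, h1, smul_smul]
      inv_mem' := by
        rintro a ⟨c1, h1⟩
        by_cases hc : c1 = 0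
        · refine ⟨0, fun v => ?_⟩
          have h2 : π a (π a⁻¹ v) = v := by
            change (π a * π a⁻¹) v = v
            rw [← map_mul, mul_inv_cancel, map_one]
            rfl
          rw [h1, hc, zero_smul] at h2
          rw [← h2, map_zero, smul_zero]
        · refine ⟨c1⁻¹, fun v => ?_⟩
          have h2 : π a (π a⁻¹ v) = v := by
            change (π a * π a⁻¹) v = v
            rw [← map_mul, mul_inv_cancel, map_one]
            rfl
          rw [h1] at h2
          rw [← h2, smul_smul, inv_mul_cancel₀ hc, one_smul, h2] }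
  have hN0 : ∀ y, y ∈ N0 ↔ ∃ c : ℂ, ∀ v, π y v = c • v := fun y => Iff.rfl
  have hnorm : N0.Normal := by
    constructor
    rintro y ⟨c, hc⟩ g
    refine ⟨c, fun v => ?_⟩
    rw [map_mul, map_mul]
    change π g (π y (π g⁻¹ v)) = _
    rw [hc, map_smul]
    congr 1
    change (π g * π g⁻¹) v = v
    rw [← map_mul, mul_inv_cancel, map_one]
    rfl
  have hP : Group.IsNilpotent (V ⧸ N0) := inferInstance
  obtain ⟨c, hc⟩ := g1_pow (V ⧸ N0) hP d (by
    intro x
    induction x using QuotientGroup.induction_on with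
    | H y =>
      intro hy
      have h1 : ∀ g : V, ∃ c : ℂ, ∀ v, π y (π g v) = c • π g (π y v) := by
        intro g
        have h2 := hy (QuotientGroup.mk g)
        have h3 : (QuotientGroup.mk ⁅y, g⁆ : V ⧸ N0) = 1 := h2
        rw [QuotientGroup.eq_one_iff, hN0] at h3
        obtain ⟨c, hc⟩ := h3
        refine ⟨c, fun v => ?_⟩
        rw [← hc]
        change (π y * π g) v = (π ⁅y, g⁆ * (π g * π y)) v
        rw [← map_mul, ← map_mul, ← map_mul]
        congr 2
        rw [commutatorElement_def]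
        group
      have h2 : ∀ g v, π (y ^ d) (π g v) = π g (π (y ^ d) v) := by
        intro g
        obtain ⟨c, hc⟩ := h1 g
        have h3 : c ^ d = 1 := by
          have h4 : ((π y : E ≃ₗ[ℂ] E) : E →ₗ[ℂ] E) * ((π g : E ≃ₗ[ℂ] E) : E →ₗ[ℂ] E) =
              c • (((π g : E ≃ₗ[ℂ] E) : E →ₗ[ℂ] E) * ((π y : E ≃ₗ[ℂ] E) : E →ₗ[ℂ] E)) := by
            ext v
            exact hc v
          have h5 := congrArg LinearMap.det h4
          rw [LinearMap.det_smul, map_mul, map_mul, ← hdd] at h5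
          have h6 : LinearMap.det ((π y : E ≃ₗ[ℂ] E) : E →ₗ[ℂ] E) ≠ 0 :=
            (LinearEquiv.isUnit_det' (π y)).ne_zero
          have h7 : LinearMap.det ((π g : E ≃ₗ[ℂ] E) : E →ₗ[ℂ] E) ≠ 0 :=
            (LinearEquiv.isUnit_det' (π g)).ne_zero
          have h8 : (LinearMap.det ((π y : E ≃ₗ[ℂ] E) : E →ₗ[ℂ] E) *
            LinearMap.det ((π g : E ≃ₗ[ℂ] E) : E →ₗ[ℂ] E)) ≠ 0 := mul_ne_zero h6 h7
          apply mul_right_cancel₀ h8
          rw [one_mul]
          rw [mul_comm (LinearMap.det ((π g : E ≃ₗ[ℂ] E) : E →ₗ[ℂ] E))] at h5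
          exact h5.symm
        have h4 : ∀ (k : ℕ) v, π (y ^ k) (π g v) = c ^ k • π g (π (y ^ k) v) := by
          intro k
          induction k with
          | zero =>
            intro v
            rw [pow_zero, pow_zero, map_one, one_smul]
            rfl
          | succ k ih =>
            intro v
            have h5 : ∀ w, π (y ^ (k + 1)) w = π y (π (y ^ k) w) := by
              intro w
              rw [pow_succ', map_mul]
              rfl
            rw [h5, h5, ih, map_smul, hc, smul_smul, pow_succ]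
        intro v
        rw [h4, h3, one_smul]
      obtain ⟨c, hc⟩ := hS ((π (y ^ d) : E ≃ₗ[ℂ] E) : E →ₗ[ℂ] E) (by
        intro g v
        exact h2 g v)
      have h3 : (QuotientGroup.mk (y ^ d) : V ⧸ N0) = 1 := by
        rw [QuotientGroup.eq_one_iff, hN0]
        exact ⟨c, hc⟩
      exact h3)
  refine ⟨d ^ c, Nat.one_le_pow _ _ hd, fun y => ?_⟩
  have h1 := hc (QuotientGroup.mk y)
  have h2 : (QuotientGroup.mk (y ^ d ^ c) : V ⧸ N0) = 1 := h1
  rw [QuotientGroup.eq_one_iff, hN0] at h2
  exact h2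

end Pool.Agent.Helper40.Nil
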