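import Mathlib
import Pool.Agent.Helper40.Nil.Stmts

/-! Module WFIN: Wiener-Wintner type theorem for polynomial sequences in nilpotent groups. -/

set_option autoImplicit false

namespace Pool.Agent.Helper40.Nil

open Filter Topology Polynomial
open scoped ComplexConjugate InnerProductSpace

universe u

/-- averages over integer intervals -/
theorem wfin_avg (g : ℤ → ℝ)
    (h : Tendsto (fun N : ℕ => avg (Finset.Ico (0 : ℤ) (N + 1)) (fun x => ((g x : ℝ) : ℂ)))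
      atTop (𝓝 0)) :
    Tendsto (fun N : ℕ => (∑ n ∈ Finset.range N, g n) / (N : ℝ)) atTop (𝓝 0) := by
  have h1 : ∀ N : ℕ, avg (Finset.Ico (0 : ℤ) (N + 1)) (fun x => ((g x : ℝ) : ℂ)) =
      (((∑ n ∈ Finset.range (N + 1), g n) / ((N + 1 : ℕ) : ℝ) : ℝ) : ℂ) := by
    intro N
    have h2 : Finset.Ico (0 : ℤ) (N + 1) = (Finset.range (N + 1)).map Nat.castEmbedding := by
      ext x
      simp only [Finset.mem_Ico, Finset.mem_map, Finset.mem_range, Nat.castEmbedding_apply]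
      constructor
      · rintro ⟨h3, h4⟩
        exact ⟨x.toNat, by omega, by omega⟩
      · rintro ⟨n, h3, h4⟩
        omega
    unfold avg
    rw [h2, Finset.sum_map, Finset.card_map, Finset.card_range]
    simp only [Nat.castEmbedding_apply, smul_eq_mul]
    push_cast
    rw [div_eq_inv_mul]
  have h3 : Tendsto (fun N : ℕ => (((∑ n ∈ Finset.range (N + 1), g n) / ((N + 1 : ℕ) : ℝ) : ℝ) : ℂ))
      atTop (𝓝 0) := by
    refine h.congr (fun N => h1 N)
  have h4 : Tendsto (fun N : ℕ => (∑ n ∈ Finset.range (N + 1), g n) / ((N + 1 : ℕ) : ℝ))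
      atTop (𝓝 0) := by
    have h5 := (Complex.continuous_re.tendsto 0).comp h3
    rw [Complex.zero_re] at h5
    exact h5.congr (fun N => Complex.ofReal_re _)
  exact (tendsto_add_atTop_iff_nat (f := fun N : ℕ =>
    (∑ n ∈ Finset.range N, g n) / (N : ℝ)) 1).mp h4

/-- Cauchy-Schwarz -/
theorem wfin_cs (ν f : ℕ → ℂ) (hν : ∀ n, ‖ν n‖ ≤ 1)
    (h : Tendsto (fun N : ℕ => (∑ n ∈ Finset.range N, ‖f n‖ ^ 2) / (N : ℝ)) atTop (𝓝 0)) :
    Tendsto (fun N : ℕ => (∑ n ∈ Finset.range N, ν n * f n) / (N : ℂ)) atTop (𝓝 0) := by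
  rw [tendsto_zero_iff_norm_tendsto_zero]
  have h1 : Tendsto (fun N : ℕ => Real.sqrt ((∑ n ∈ Finset.range N, ‖f n‖ ^ 2) / (N : ℝ)))
      atTop (𝓝 0) := by
    have := (Real.continuous_sqrt.tendsto 0).comp h
    rwa [Real.sqrt_zero] at this
  refine squeeze_zero (fun _ => norm_nonneg _) ?_ h1
  intro N
  rcases Nat.eq_zero_or_pos N with rfl | hN
  · simp
  have hN' : (0 : ℝ) < N := by exact_mod_cast hN
  apply Real.le_sqrt_of_sq_le
  rw [norm_div, Complex.norm_natCast, div_pow, div_le_div_iff₀ (by positivity) hN']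
  have h2 : ‖∑ n ∈ Finset.range N, ν n * f n‖ ≤ ∑ n ∈ Finset.range N, ‖f n‖ := by
    refine (norm_sum_le _ _).trans (Finset.sum_le_sum (fun n _ => ?_))
    rw [norm_mul]
    have := mul_le_mul_of_nonneg_right (hν n) (norm_nonneg (f n))
    linarith
  have h3 : (∑ n ∈ Finset.range N, ‖f n‖) ^ 2 ≤ N * ∑ n ∈ Finset.range N, ‖f n‖ ^ 2 := by
    have := sq_sum_le_card_mul_sum_sq (s := Finset.range N) (f := fun n => ‖f n‖)
    rwa [Finset.card_range] at this
  have h4 : ‖∑ n ∈ Finset.range N, ν n * f n‖ ^ 2 ≤ (∑ n ∈ Finset.range N, ‖f n‖) ^ 2 :=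
    pow_le_pow_left₀ (norm_nonneg _) h2 2
  nlinarith

/-- positive definite functions along a polynomial sequence that generates the group -/
theorem wfin_a (hEE : ∀ c, EE.{u} c) (hWNI : ST_WNI.{u}) (hFDQ : ST_FDQ.{u})
    (hRAIN : ST_RAIN.{u}) (hGNS : ST_GNS.{u}) (hKC : ST_KC.{u, u}) (hAVG : ST_AVG.{u})
    (V : Type u) [Group V] (hV : Group.IsNilpotent V) (hfg : Group.FG V) (u : ℤ → V)
    (hu : IsPoly u) (hu0 : u 0 = 1) (hcl : Subgroup.closure (Set.range u) = ⊤)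
    (ν : ℕ → ℂ) (hν : ∀ n, ‖ν n‖ ≤ 1) (hO : Wiener.OrthPoly ν) (φ : V → ℂ) (hφ : φ ∈ KK V) :
    Tendsto (fun N : ℕ => (∑ n ∈ Finset.range N, ν n * φ (u n)) / (N : ℂ)) atTop (𝓝 0) := by
  classical
  obtain ⟨-, -, hK3, -⟩ := hKC V
  refine hRAIN V (fun N φ => (∑ n ∈ Finset.range N, ν n * φ (u n)) / (N : ℂ)) 1 ?_ ?_ ?_ ?_ φ hφ
  · intro N
    constructor
    · intro x y
      simp only [Pi.add_apply, mul_add, Finset.sum_add_distrib, add_div]
    · intro c x
      simp only [Pi.smul_apply, smul_eq_mul]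
      rw [← mul_div_assoc, Finset.mul_sum]
      congr 1
      refine Finset.sum_congr rfl (fun n _ => ?_)
      ring
  · intro N
    fun_prop
  · intro N φ' hφ'
    rcases Nat.eq_zero_or_pos N with rfl | hN
    · simp
    have hN' : (0 : ℝ) < N := by exact_mod_cast hN
    rw [norm_div, Complex.norm_natCast, div_le_one hN']
    refine (norm_sum_le _ _).trans ?_
    calc ∑ n ∈ Finset.range N, ‖ν n * φ' (u n)‖ ≤ ∑ n ∈ Finset.range N, (1 : ℝ) := by
          refine Finset.sum_le_sum (fun n _ => ?_)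
          rw [norm_mul]
          exact mul_le_one₀ (hν n) (norm_nonneg _) (hK3 φ' hφ' _).1
      _ = N := by simp
  · intro φ' hφ'
    obtain ⟨E, i1, i2, i3, π, ζ, hG⟩ := hGNS V φ' hφ'.1
    by_cases hfd : FiniteDimensional ℂ E
    · exact hFDQ V hV φ' hφ' E π ζ hG hfd u hu ν hν hO
    · have hnil : Group.IsNilpotent V := hV
      have h1 := hWNI (Group.nilpotencyClass V) (hEE _) V (Nat.le_succ _) hfg ℤ inferInstance
        (fun N : ℕ => Finset.Ico (0 : ℤ) (N + 1)) hAVG.2.2 u hu hu0 hcl φ' hφ' E π ζ hG hfd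
      have h2 := wfin_avg (fun n => ‖φ' (u n)‖ ^ 2) h1
      exact wfin_cs ν (fun n => φ' (u n)) hν h2

theorem st_WFIN (hEE : ∀ c, EE.{u} c) (hWNI : ST_WNI.{u}) (hFDQ : ST_FDQ.{u})
    (hRAIN : ST_RAIN.{u}) (hGNS : ST_GNS.{u}) (hKC : ST_KC.{u, u}) (hFGZ : ST_FGZ.{u})
    (hPOLA : ST_POLA.{u, u}) (hPOLB : ST_POLB.{u}) (hAVG : ST_AVG.{u}) : ST_WFIN.{u} := by
  classical
  intro V _ hV φ hφ u hu ν hν hO
  -- the group generated by the values
  have hu1 : IsPoly (fun n => u n * (u 0)⁻¹) := (hPOLB ℤ V u hu).1 (u 0) ⟨0, rfl⟩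
  obtain ⟨W, hW⟩ : ∃ W, W = Subgroup.closure (Set.range (fun n => u n * (u 0)⁻¹)) := ⟨_, rfl⟩
  have hmem : ∀ n, u n * (u 0)⁻¹ ∈ W := by
    intro n
    rw [hW]
    exact Subgroup.subset_closure ⟨n, rfl⟩
  let u' : ℤ → W := fun n => ⟨u n * (u 0)⁻¹, hmem n⟩
  have hu' : IsPoly u' := hPOLA.2.1 ℤ V W W.subtype u' W.subtype_injective hu1
  have hu'0 : u' 0 = 1 := Subtype.ext (mul_inv_cancel (u 0))
  have hcl : Subgroup.closure (Set.range u') = ⊤ := by
    have h1 : (Subgroup.closure (Set.range u')).map W.subtype = (⊤ : Subgroup W).map W.subtype := by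
      have h2 : ⇑W.subtype '' Set.range u' = Set.range (fun n => u n * (u 0)⁻¹) := by
        rw [← Set.range_comp]
        rfl
      rw [MonoidHom.map_closure, ← MonoidHom.range_eq_map, W.range_subtype, h2, ← hW]
    exact Subgroup.map_injective W.subtype_injective h1
  have hfg : Group.FG W := by
    have h1 := hFGZ W u' hu'
    rw [hcl] at h1
    exact ⟨h1⟩
  have hWnil : Group.IsNilpotent W := Subgroup.isNilpotent W
  have hA := wfin_a hEE hWNI hFDQ hRAIN hGNS hKC hAVG W hWnil hfg u' hu' hu'0 hcl ν hν hO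
  obtain ⟨E, i1, i2, i3, π, ζ, hG⟩ := hGNS V φ hφ
  obtain ⟨-, -, -, hK4⟩ := hKC W
  -- coefficients with one vector
  have hC : ∀ η : E, Tendsto (fun N : ℕ => (∑ n ∈ Finset.range N,
      ν n * ⟪η, π (u n * (u 0)⁻¹) η⟫_ℂ) / (N : ℂ)) atTop (𝓝 0) := by
    intro η
    by_cases hη : η = 0
    · simp only [hη, inner_zero_left, mul_zero, Finset.sum_const_zero, zero_div]
      exact tendsto_const_nhds
    have hn : ‖η‖ ≠ 0 := norm_ne_zero_iff.mpr hη
    have hnc : (‖η‖ : ℂ) ≠ 0 := by exact_mod_cast hn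
    have h1 := hK4 E (π.comp W.subtype) (((‖η‖ : ℂ)⁻¹) • η) (by
      rw [norm_smul, norm_inv, Complex.norm_real, norm_norm, inv_mul_cancel₀ hn])
    have h2 := (hA _ h1).const_mul ((‖η‖ : ℂ) ^ 2)
    rw [mul_zero] at h2
    refine h2.congr (fun N => ?_)
    rw [← mul_div_assoc, Finset.mul_sum]
    congr 1
    refine Finset.sum_congr rfl (fun n _ => ?_)
    have h3 : (π.comp W.subtype) (u' n) = π (u n * (u 0)⁻¹) := rfl
    rw [h3, map_smul, inner_smul_left, inner_smul_right, map_inv₀, Complex.conj_ofReal]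
    field_simp
  have hpol : ∀ n : ℤ, φ (u n) =
      (1 / 4) * (⟪π (u 0) ζ + ζ, π (u n * (u 0)⁻¹) (π (u 0) ζ + ζ)⟫_ℂ -
        ⟪π (u 0) ζ - ζ, π (u n * (u 0)⁻¹) (π (u 0) ζ - ζ)⟫_ℂ +
        Complex.I * ⟪π (u 0) ζ + Complex.I • ζ, π (u n * (u 0)⁻¹) (π (u 0) ζ + Complex.I • ζ)⟫_ℂ -
        Complex.I * ⟪π (u 0) ζ - Complex.I • ζ,
          π (u n * (u 0)⁻¹) (π (u 0) ζ - Complex.I • ζ)⟫_ℂ) := by
    intro n
    have h1 : φ (u n) = ⟪ζ, π (u n * (u 0)⁻¹) (π (u 0) ζ)⟫_ℂ := by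
      rw [hG.coef]
      congr 1
      have h2 : π (u n) = π (u n * (u 0)⁻¹) * π (u 0) := by
        rw [← map_mul, inv_mul_cancel_right]
      rw [h2]
      rfl
    rw [h1]
    simp only [map_add, map_sub, map_smul, inner_add_left, inner_add_right, inner_sub_left,
      inner_sub_right, inner_smul_left, inner_smul_right, Complex.conj_I]
    linear_combination (1 / 2 * ⟪ζ, π (u n * (u 0)⁻¹) (π (u 0) ζ)⟫_ℂ -
      1 / 2 * ⟪π (u 0) ζ, π (u n * (u 0)⁻¹) ζ⟫_ℂ) * Complex.I_sq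
  have hfin := ((((hC (π (u 0) ζ + ζ)).sub (hC (π (u 0) ζ - ζ))).add
    ((hC (π (u 0) ζ + Complex.I • ζ)).const_mul Complex.I)).sub
    ((hC (π (u 0) ζ - Complex.I • ζ)).const_mul Complex.I)).const_mul (1 / 4 : ℂ)
  simp only [mul_zero, add_zero, sub_zero] at hfin
  refine hfin.congr (fun N => ?_)
  simp only [hpol]
  rw [← mul_div_assoc, ← mul_div_assoc, ← sub_div, ← add_div, ← sub_div, ← mul_div_assoc]
  congr 1
  rw [Finset.mul_sum, Finset.mul_sum, ← Finset.sum_sub_distrib, ← Finset.sum_add_distrib,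
    ← Finset.sum_sub_distrib, Finset.mul_sum]
  refine Finset.sum_congr rfl (fun n _ => ?_)
  ring

end Pool.Agent.Helper40.Nil
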